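import Pool.Agent.Q193.SC.Main

set_option autoImplicit false

/-!
# Complemented ideals in approximately semi-amenable Banach algebras

A complemented closed two-sided ideal of an approximately semi-amenable Banach algebra is itself
approximately semi-amenable.
-/

namespace Pool.Agent.Results.MP_b29958_an.ComplementedIdeals

open Pool.Agent.Q193.SA Pool.Agent.Q193.SC

universe u

/-- A (non-unital) subalgebra of a complex normed algebra is a complex normed space, with the
restricted norm. -/
noncomputable instance subNormedSpace {A : Type u} [NonUnitalNormedRing A] [NormedSpace ℂ A]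
    (J : NonUnitalSubalgebra ℂ A) : NormedSpace ℂ J where
  norm_smul_le c x := norm_smul_le c (x : A)

/-- Let `A` be an approximately semi-amenable complex Banach algebra and `J` a two-sided ideal of
`A` that is complemented: there is a bounded linear projection `P` of `A` onto `J` (so `J` is
closed). Then the Banach algebra `J` is approximately semi-amenable. -/
theorem result {A : Type u} [NonUnitalNormedRing A] [NormedSpace ℂ A] [IsScalarTower ℂ A A]
    [SMulCommClass ℂ A A] [CompleteSpace A] (hA : ApproxSemiAmenable A)
    (J : NonUnitalSubalgebra ℂ A) (hJ : ∀ a : A, ∀ x ∈ J, a * x ∈ J ∧ x * a ∈ J)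
    (P : A →L[ℂ] J) (hP : ∀ x : J, P (x : A) = x) : ApproxSemiAmenable J := by
  let i : J →L[ℂ] A :=
    { toFun := fun x => (x : A)
      map_add' := fun _ _ => rfl
      map_smul' := fun _ _ => rfl
      cont := continuous_subtype_val }
  have H : Compl i P :=
    { iso := fun _ => rfl
      mul := fun _ _ => rfl
      Pi := hP
      left := fun a x => congrArg Subtype.val (hP ⟨a * x, (hJ a x x.2).1⟩)
      right := fun a x => congrArg Subtype.val (hP ⟨x * a, (hJ a x x.2).2⟩) }
  exact ideal_semi H hA

end Pool.Agent.Results.MP_b29958_an.ComplementedIdeals
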